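import Pool.Agent.PQP.StmtsE
import Pool.Agent.Helper40_FLX.Fix
import Pool.Agent.Helper32_FLX.Rea
import Pool.Agent.Helper83_FLX.Ker
import Pool.Agent.Helper88_FLX.Nrm
import Pool.Agent.Helper82_FLX.Pow
import Pool.Agent.Helper82_FLX.Vol

/-!
# PQP, row SBF: the contraction with parameters in the norm `SB`
-/

set_option autoImplicit false

open scoped InnerProductSpace Topology ContDiff Manifold NNReal
open MeasureTheory Filter Set

noncomputable section

namespace Pool.Agent.PQP.H50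

open Pool.Agent.Helper42_Paneitz Pool.Agent.Helper82_Vir Pool.Agent.FLX Pool.Agent.FLX.H40

theorem SB.nonneg {f : S4 → ℝ} {B : ℝ} (h : SB f B) (x : S4) : 0 ≤ B :=
  (integral_nonneg fun y => by positivity).trans (h x)

theorem SB.mono {f : S4 → ℝ} {B B' : ℝ} (h : SB f B) (hB : B ≤ B') : SB f B' :=
  fun x => (h x).trans hB

theorem sbf (hsbl : SblStmt) (hsbk : SbkStmt) (hsbn : SbnStmt) : SbfStmt := by
  have hpow : PowStmt := H82.pow H82.vol
  have hker : KerStmt := H83.ker hpow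
  have hrea : ReaStmt := H32.rea hpow hker
  have hnrm : NrmStmt := H88.nrm
  obtain ⟨hell, -⟩ := hker
  obtain ⟨CK, hCK, hK⟩ := hsbk
  obtain ⟨CN, hCN, hN⟩ := hsbn
  obtain ⟨⟨CS, hCS, hS⟩, -⟩ := hsbl
  set L : ℝ := CK * (25 / 24) with hLdef
  have hL0 : 0 ≤ L := by positivity
  have hL : ∀ (f : S4 → ℝ) (B : ℝ), Continuous f → SB f B → ∀ x, |K f x - avg f / 24| ≤ L * B := by
    intro f B hf hB x
    obtain ⟨h1, h2, -⟩ := hK f B hf hB
    have h3 : |avg f / 24| ≤ CK * B / 24 := by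
      rw [abs_div, abs_of_pos (by norm_num : (0 : ℝ) < 24)]
      gcongr
    calc |K f x - avg f / 24| ≤ |K f x| + |avg f / 24| := abs_sub _ _
      _ ≤ CK * B + CK * B / 24 := add_le_add (h1 x) h3
      _ = L * B := by rw [hLdef]; ring
  set C₁ : ℝ := L * CN + 1 with hC₁def
  have hC₁ : 1 ≤ C₁ := by
    have : 0 ≤ L * CN := mul_nonneg hL0 hCN
    linarith
  have hC₁p : 0 < C₁ := by linarith
  have hLC : L * CN ≤ C₁ := by linarith
  refine ⟨1 / (800 * C₁ ^ 2), 20 * C₁, by positivity, by positivity, ?_⟩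
  intro S q τ hqc hτ0 hτ hqN
  have hq : ∀ b ∈ S, Continuous (q b) := by
    intro b hb
    have h1 : Continuous fun x : S4 => ((b, x) : E5 × S4) := by fun_prop
    have h2 := hqc.comp_continuous h1 (fun x => ⟨hb, mem_univ _⟩)
    exact h2
  set R : ℝ := 20 * C₁ * τ with hRdef
  have hR0 : 0 ≤ R := by positivity
  have hτC : C₁ * τ = R / 20 := by rw [hRdef]; ring
  have hC₁R : C₁ * R ≤ 1 / 40 := by
    have h1 : C₁ * R = 20 * C₁ ^ 2 * τ := by rw [hRdef]; ring
    rw [h1]
    have h2 : 20 * C₁ ^ 2 * τ ≤ 20 * C₁ ^ 2 * (1 / (800 * C₁ ^ 2)) := by gcongr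
    have h3 : 20 * C₁ ^ 2 * (1 / (800 * C₁ ^ 2)) = 1 / 40 := by
      field_simp
      norm_num
    linarith
  have hR4 : R ≤ 1 / 40 := by
    have : R ≤ C₁ * R := by nlinarith
    linarith
  have hmap : ∀ b ∈ S, ∀ h : S4 → ℝ, Continuous h → (∀ x, |h x| ≤ R) →
      ∀ x, |TT (q b) h x| ≤ R := by
    intro b hb h hh hhR x
    have h1 := hnrm h R hh hhR x
    have h3 := (hN (q b) h h R 0 τ (hq b hb) hh hh hR0 (by linarith) hhR hhR
      (fun x => by simp) (hqN b hb)).1
    have h2 := hL _ _ (continuous_Nn (hq b hb) hh) h3 x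
    have h4 : L * (CN * (τ + R ^ 2)) ≤ C₁ * (τ + R ^ 2) := by
      calc L * (CN * (τ + R ^ 2)) = (L * CN) * (τ + R ^ 2) := by ring
        _ ≤ C₁ * (τ + R ^ 2) :=
          mul_le_mul_of_nonneg_right hLC (add_nonneg hτ0 (sq_nonneg _))
    have h5 : C₁ * (τ + R ^ 2) ≤ R / 20 + R / 40 := by
      have : C₁ * R ^ 2 ≤ R / 40 := by nlinarith
      nlinarith
    have h6 : |TT (q b) h x| ≤ |Aop h x| + |K (Nn (q b) h) x - avg (Nn (q b) h) / 24| := by
      unfold TT
      rw [add_sub_assoc]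
      exact abs_add_le _ _
    linarith
  have hcon : ∀ b ∈ S, ∀ h h' : S4 → ℝ, Continuous h → Continuous h' → (∀ x, |h x| ≤ R) →
      (∀ x, |h' x| ≤ R) → ∀ D : ℝ, (∀ x, |h x - h' x| ≤ D) →
        ∀ x, |TT (q b) h x - TT (q b) h' x| ≤ 19 / 20 * D := by
    intro b hb h h' hh hh' hhR hhR' D hD x
    have hD0 : 0 ≤ D := (abs_nonneg _).trans (hD x)
    have h1 := hnrm (fun x => h x - h' x) D (hh.sub hh') hD x
    have hN1 := continuous_Nn (hq b hb) hh
    have hN2 := continuous_Nn (hq b hb) hh'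
    have h3 := (hN (q b) h h' R D τ (hq b hb) hh hh' hR0 (by linarith) hhR hhR' hD
      (hqN b hb)).2.1
    have h2 := hL (fun x => Nn (q b) h x - Nn (q b) h' x) _ (hN1.sub hN2) h3 x
    rw [H40.K_sub hell hN1 hN2, H40.avg_sub hN1 hN2] at h2
    rw [H40.Aop_sub hell hh hh'] at h1
    have h4 : L * (CN * (τ + R) * D) ≤ C₁ * (τ + R) * D := by
      calc L * (CN * (τ + R) * D) = (L * CN) * ((τ + R) * D) := by ring
        _ ≤ C₁ * ((τ + R) * D) :=
          mul_le_mul_of_nonneg_right hLC (mul_nonneg (add_nonneg hτ0 hR0) hD0)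
        _ = C₁ * (τ + R) * D := by ring
    have h5 : C₁ * (τ + R) * D ≤ 1 / 20 * D := by
      have : C₁ * (τ + R) ≤ 1 / 20 := by nlinarith
      exact mul_le_mul_of_nonneg_right this hD0
    have h6 : TT (q b) h x - TT (q b) h' x = (Aop h x - Aop h' x) +
        (K (Nn (q b) h) x - K (Nn (q b) h') x - (avg (Nn (q b) h) - avg (Nn (q b) h')) / 24) := by
      unfold TT
      ring
    rw [h6]
    have h7 := abs_add_le (Aop h x - Aop h' x)
      (K (Nn (q b) h) x - K (Nn (q b) h') x - (avg (Nn (q b) h) - avg (Nn (q b) h')) / 24)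
    linarith
  have hex : ∀ b : E5, ∃ h : S4 → ℝ, b ∈ S → Continuous h ∧ (∀ x, |h x| ≤ R) ∧
      ∀ x, h x = TT (q b) h x := by
    intro b
    by_cases hb : b ∈ S
    · obtain ⟨h, hh⟩ := fixpt hrea (hq b hb) hR0 (hmap b hb) (hcon b hb)
      exact ⟨h, fun _ => hh⟩
    · exact ⟨fun _ => 0, fun h => absurd h hb⟩
  choose H hH using hex
  have hstab : ∀ b ∈ S, ∀ b' ∈ S, ∀ E : ℝ, 0 ≤ E → (∀ x, |q b x - q b' x| ≤ E) →
      ∀ x, |H b x - H b' x| ≤ 20 * (L * (CS * (3 * E))) := by
    intro b hb b' hb' E hE hqq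
    obtain ⟨hc, hcR, hfix⟩ := hH b hb
    obtain ⟨hc', hcR', hfix'⟩ := hH b' hb'
    refine dist_bound hc hc' (by positivity) ?_
    intro D hD x
    have h1 := hcon b hb (H b) (H b') hc hc' hcR hcR' D hD x
    have hN1 := continuous_Nn (hq b hb) hc'
    have hN2 := continuous_Nn (hq b' hb') hc'
    have h3 : SB (fun x => Nn (q b) (H b') x - Nn (q b') (H b') x) (CS * (3 * E)) := by
      refine hS _ _ (hN1.sub hN2) fun x => ?_
      have h4 : Nn (q b) (H b') x - Nn (q b') (H b') x =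
          (q b x - q b' x) * Real.exp (4 * H b' x) := by
        unfold Nn
        ring
      show |Nn (q b) (H b') x - Nn (q b') (H b') x| ≤ 3 * E
      rw [h4, abs_mul, abs_of_pos (Real.exp_pos _)]
      have h5 : Real.exp (4 * H b' x) ≤ 3 := by
        have h6 : 4 * H b' x ≤ 1 := by
          have := (abs_le.1 (hcR' x)).2
          linarith
        have h7 := Real.exp_one_lt_d9
        have h8 := Real.exp_le_exp.2 h6
        linarith
      calc |q b x - q b' x| * Real.exp (4 * H b' x) ≤ E * 3 := by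
            have := hqq x
            gcongr
        _ = 3 * E := by ring
    have h2 := hL (fun x => Nn (q b) (H b') x - Nn (q b') (H b') x) _ (hN1.sub hN2) h3 x
    rw [H40.K_sub hell hN1 hN2, H40.avg_sub hN1 hN2] at h2
    have h6 : H b x - H b' x = (TT (q b) (H b) x - TT (q b) (H b') x) +
        (K (Nn (q b) (H b')) x - K (Nn (q b') (H b')) x -
          (avg (Nn (q b) (H b')) - avg (Nn (q b') (H b'))) / 24) := by
      rw [hfix x, hfix' x]
      unfold TT
      ring
    rw [h6]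
    have h7 := abs_add_le (TT (q b) (H b) x - TT (q b) (H b') x)
      (K (Nn (q b) (H b')) x - K (Nn (q b') (H b')) x -
          (avg (Nn (q b) (H b')) - avg (Nn (q b') (H b'))) / 24)
    linarith
  refine ⟨H, ?_, fun b hb => (hH b hb).1, fun b hb x => (hH b hb).2.1 x, fun b hb x => ?_⟩
  · rintro ⟨b, x⟩ ⟨hb, -⟩
    rw [ContinuousWithinAt, Metric.tendsto_nhds]
    intro ε hε
    set M : ℝ := 20 * (L * (CS * 3)) + 1 with hMdef
    have hM : 0 < M := by positivity
    obtain ⟨v, hv, hvq⟩ := isCompact_univ.mem_uniformity_of_prod (f := q) (s := S)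
      (k := (univ : Set S4)) hqc hb (Metric.dist_mem_uniformity (show 0 < ε / (2 * M) by positivity))
    have hv2 : ∀ᶠ z : E5 × S4 in 𝓝[S ×ˢ univ] (b, x), z.1 ∈ v ∧ z.1 ∈ S := by
      have h1 : Tendsto (fun z : E5 × S4 => z.1) (𝓝[S ×ˢ univ] (b, x)) (𝓝[S] b) := by
        refine tendsto_nhdsWithin_iff.2 ⟨?_, ?_⟩
        · exact (continuous_fst.tendsto (b, x)).mono_left nhdsWithin_le_nhds
        · filter_upwards [self_mem_nhdsWithin] with z hz
          exact hz.1
      exact (h1.eventually hv).and (h1.eventually self_mem_nhdsWithin)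
    have hcx : ∀ᶠ y in 𝓝 x, dist (H b y) (H b x) < ε / 2 :=
      (Metric.tendsto_nhds.1 ((hH b hb).1.tendsto x)) (ε / 2) (by positivity)
    have hx2 : ∀ᶠ z : E5 × S4 in 𝓝[S ×ˢ univ] (b, x), dist (H b z.2) (H b x) < ε / 2 := by
      have h1 : Tendsto (fun z : E5 × S4 => z.2) (𝓝[S ×ˢ univ] (b, x)) (𝓝 x) :=
        (continuous_snd.tendsto (b, x)).mono_left nhdsWithin_le_nhds
      exact h1.eventually hcx
    filter_upwards [hv2, hx2] with z hz1 hz2
    have h1 : ∀ y, |q z.1 y - q b y| ≤ ε / (2 * M) := by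
      intro y
      have h2 := hvq z.1 hz1.1 y (mem_univ _)
      have h3 : dist (q z.1 y) (q b y) < ε / (2 * M) := h2
      rw [Real.dist_eq] at h3
      exact h3.le
    have h4 := hstab z.1 hz1.2 b hb (ε / (2 * M)) (by positivity) h1 z.2
    have h5 : 20 * (L * (CS * (3 * (ε / (2 * M))))) < ε / 2 := by
      have h6 : 20 * (L * (CS * (3 * (ε / (2 * M))))) = (M - 1) * (ε / (2 * M)) := by
        rw [hMdef]
        ring
      have h7 : (M - 1) * (ε / (2 * M)) < M * (ε / (2 * M)) := by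
        have : 0 < ε / (2 * M) := by positivity
        nlinarith
      have h8 : M * (ε / (2 * M)) = ε / 2 := by
        field_simp
      rw [h6]
      linarith
    show dist (H z.1 z.2) (H b x) < ε
    have h9 : dist (H z.1 z.2) (H b z.2) < ε / 2 := by
      rw [Real.dist_eq]
      linarith
    have h10 := dist_triangle (H z.1 z.2) (H b z.2) (H b x)
    linarith
  · exact (hH b hb).2.2 x

end Pool.Agent.PQP.H50
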